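import Pool.Agent.Run7.h209.P24.Stm
import Pool.Agent.Run7.h209.P15.Hasse
import Pool.Agent.Run7.h209.P15.CpGen
import Pool.Agent.Run7.h209.P15.E21

/-!
# Project P24: the statements `S_TORS`, `S_LAT`, `S_CP`, `S_CP8`, `S_HASSE`, `S_EIGHT`, `S_MIN` of `Stm.lean`
-/

set_option autoImplicit false

open UpperHalfPlane MatrixGroups CongruenceSubgroup Filter Topology
open scoped ModularForm Pointwise

namespace Run7.h209.P24

open Pool.Agent.W97.MT WeierstrassCurve
open Pool.Agent.W97.TW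
open Run7.h209.P15 (tors_gen rect_lattice hasse eight_gen affCount_le_gen minimal_of)

theorem m_tors : S_TORS := by
  intro L h2 h3 u hu hP
  rcases hP with hP | hP
  · apply tors_gen L (11 / 3) (5 / 3) _ _ _ u hu hP
    · rw [h2, h3]; norm_num
    · rw [h2, h3]; norm_num
    · rw [h2, h3]; norm_num
  · apply tors_gen L (-1 / 3) (5 / 3) _ _ _ u hu hP
    · rw [h2, h3]; norm_num
    · rw [h2, h3]; norm_num
    · rw [h2, h3]; norm_num

theorem m_lat : S_LAT := by
  obtain ⟨L, Op, Om, h1, h2, h3, h4, h5⟩ := rect_lattice (52 / 3) (-280 / 27) (by norm_num)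
  refine ⟨L, Op, Om, h1, h2, ?_, ?_, h5⟩
  · rw [h3]; push_cast; ring
  · rw [h4]; push_cast; ring

theorem m_hasse : S_HASSE := by
  intro p _ hp φ ξ σ hξ hσ h1 h2
  refine hasse E24 1 p hp φ ξ σ hξ hσ h1 ?_
  rw [h2]
  have hA : (E24.b₂ + 12 * 1 : ℤ) = 8 := by
    simp [WeierstrassCurve.b₂, E24]
  have hB : (12 * 1 ^ 2 + 2 * E24.b₂ * 1 + 2 * E24.b₄ : ℤ) = -12 := by
    simp [WeierstrassCurve.b₂, WeierstrassCurve.b₄, E24]
  have hC : (4 * 1 ^ 3 + E24.b₂ * 1 ^ 2 + 2 * E24.b₄ * 1 + E24.b₆ : ℤ) = 0 := by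
    simp [WeierstrassCurve.b₂, WeierstrassCurve.b₄, WeierstrassCurve.b₆, E24]
  rw [hA, hB, hC]
  have e1 : (((8 : ℤ)) : ZMod p) = 8 := by push_cast; ring
  have e2 : (((-12 : ℤ)) : ZMod p) = -12 := by push_cast; ring
  rw [e1, e2, Int.cast_zero, map_zero, map_neg, map_ofNat, map_ofNat]
  ring

theorem delta24 : E24.Δ = 2304 := by
  simp [WeierstrassCurve.Δ, WeierstrassCurve.b₂, WeierstrassCurve.b₄, WeierstrassCurve.b₆,
    WeierstrassCurve.b₈, E24]

theorem m_eight : S_EIGHT := by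
  intro p hp h2 h3
  have hpi : Prime (p : ℤ) := Nat.prime_iff_prime_int.1 hp
  have k2 : ¬ (p : ℤ) ∣ 2 := by
    intro h
    have : p ∣ 2 := by exact_mod_cast h
    exact h2 ((Nat.prime_dvd_prime_iff_eq hp Nat.prime_two).1 this)
  have k3 : ¬ (p : ℤ) ∣ 3 := by
    intro h
    have : p ∣ 3 := by exact_mod_cast h
    exact h3 ((Nat.prime_dvd_prime_iff_eq hp (by norm_num)).1 this)
  have kΔ : ¬ (p : ℤ) ∣ E24.Δ := by
    rw [delta24]
    intro h
    have e : (2304 : ℤ) = 2 ^ 8 * 3 ^ 2 := by norm_num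
    rw [e] at h
    rcases hpi.dvd_or_dvd h with h | h
    · exact k2 (hpi.dvd_of_dvd_pow h)
    · exact k3 (hpi.dvd_of_dvd_pow h)
  refine eight_gen E24 p hp 4 6 2 0 (-2) 0 3 kΔ ?_ ?_ ?_ ?_ ?_ ?_ ?_ ?_ ?_ ?_ ?_
  · norm_num [E24]
  · norm_num [E24]
  · norm_num [E24]
  · norm_num [E24]
  · norm_num [E24]
  · have e : 2 * (6 : ℤ) + E24.a₁ * 4 + E24.a₃ = 2 * (2 * 3) := by norm_num [E24]
    rw [e]
    intro h
    rcases hpi.dvd_or_dvd h with h | h
    · exact k2 h
    · rcases hpi.dvd_or_dvd h with h | h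
      · exact k2 h
      · exact k3 h
  · norm_num [E24]
  · norm_num [E24]
  · norm_num [E24]
  · have e : (4 : ℤ) - (-2) = 2 * 3 := by norm_num
    rw [e]
    intro h
    rcases hpi.dvd_or_dvd h with h | h
    · exact k2 h
    · exact k3 h
  · have e : (2 : ℤ) - (-2) = 2 * 2 := by norm_num
    rw [e]
    intro h
    rcases hpi.dvd_or_dvd h with h | h
    · exact k2 h
    · exact k2 h

theorem e24_eq (p : ℕ) (P : ZMod p × ZMod p) :
    (E24.map (Int.castRingHom (ZMod p))).toAffine.Equation P.1 P.2 ↔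
      P.2 ^ 2 = P.1 ^ 3 - P.1 ^ 2 - 4 * P.1 + 4 := by
  have ha1 : (E24.map (Int.castRingHom (ZMod p))).a₁ = 0 := by simp [E24]
  have ha2 : (E24.map (Int.castRingHom (ZMod p))).a₂ = -1 := by simp [E24]
  have ha3 : (E24.map (Int.castRingHom (ZMod p))).a₃ = 0 := by simp [E24]
  have ha4 : (E24.map (Int.castRingHom (ZMod p))).a₄ = -4 := by simp [E24]
  have ha6 : (E24.map (Int.castRingHom (ZMod p))).a₆ = 4 := by simp [E24]
  rw [WeierstrassCurve.Affine.equation_iff, ha1, ha2, ha3, ha4, ha6]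
  constructor <;> intro h <;> linear_combination h

theorem aff_eq24 (p : ℕ) [NeZero p] : affCount E24 p =
    (Finset.univ.filter (fun P : ZMod p × ZMod p =>
      P.2 ^ 2 = P.1 ^ 3 - P.1 ^ 2 - 4 * P.1 + 4)).card := by
  unfold affCount
  rw [Nat.card_congr (Equiv.subtypeEquivRight (e24_eq p)), Nat.card_eq_fintype_card,
    Fintype.card_subtype]

theorem min24 : IsGloballyMinimal E24 := by
  apply minimal_of
  · rw [delta24]; norm_num
  · rw [delta24]
    intro k hk hdvd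
    have h1 : 2 ^ 12 ≤ k ^ 12 := Nat.pow_le_pow_left hk 12
    have h2 := Nat.le_of_dvd (by norm_num) hdvd
    norm_num at h1 h2
    omega

theorem inv24 : E24.c₄ = 208 ∧ E24.c₆ = -2240 ∧ E24.Δ = 2304 := by
  refine ⟨?_, ?_, delta24⟩
  · simp [WeierstrassCurve.c₄, WeierstrassCurve.b₂, WeierstrassCurve.b₄, E24]
  · simp [WeierstrassCurve.c₆, WeierstrassCurve.b₂, WeierstrassCurve.b₄, WeierstrassCurve.b₆, E24]

theorem m_min : S_MIN := by
  refine ⟨?_, ?_, affCount_le_gen E24⟩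
  · rw [aff_eq24]; decide
  · rw [aff_eq24]; decide

/-! ### the constant principle -/

theorem tab24 : ∀ c d : ZMod 24, (12 * c ≠ 0 ∨ 12 * d ≠ 0) → (8 * c ≠ 0 ∨ 8 * d ≠ 0) →
    ∃ j : ZMod 24, c - ((Nat.gcd c.val 24 : ℕ) : ZMod 24) * (d - j * c) = 0 := by
  decide +kernel

theorem tab24' : ∀ c : ZMod 24, ∃ e ∈ [0, 1, 2, 3, 4, 6, 8, 12],
    ((Nat.gcd c.val 24 : ℕ) : ZMod 24) = ((e : ℕ) : ZMod 24) := by
  decide +kernel

/-- representatives of the cusps -/
theorem cusp_reps (a b c d : ℤ) (h : a * d - b * c = 1) : ∃ j e : ℤ,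
    (e = 0 ∨ e = 1 ∨ e = 2 ∨ e = 3 ∨ e = 4 ∨ e = 6 ∨ e = 8 ∨ e = 12) ∧
      (24 : ℤ) ∣ c - e * (d - j * c) := by
  have hz : (a : ZMod 24) * d - b * c = 1 := by exact_mod_cast congrArg (Int.cast : ℤ → ZMod 24) h
  have h1 : (12 * (c : ZMod 24) ≠ 0 ∨ 12 * (d : ZMod 24) ≠ 0) := by
    by_contra hc
    push Not at hc
    have h3 : (12 : ZMod 24) = 0 := by
      linear_combination (-12 : ZMod 24) * hz + (a : ZMod 24) * hc.2 - (b : ZMod 24) * hc.1
    exact absurd h3 (by decide)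
  have h2 : (8 * (c : ZMod 24) ≠ 0 ∨ 8 * (d : ZMod 24) ≠ 0) := by
    by_contra hc
    push Not at hc
    have h3 : (8 : ZMod 24) = 0 := by
      linear_combination (-8 : ZMod 24) * hz + (a : ZMod 24) * hc.2 - (b : ZMod 24) * hc.1
    exact absurd h3 (by decide)
  obtain ⟨j, hj⟩ := tab24 c d h1 h2
  obtain ⟨e, he, hee⟩ := tab24' c
  refine ⟨(j.val : ℤ), (e : ℤ), ?_, ?_⟩
  · simp only [List.mem_cons, List.not_mem_nil, or_false] at he
    rcases he with rfl | rfl | rfl | rfl | rfl | rfl | rfl | rfl <;> simp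
  · refine (ZMod.intCast_zmod_eq_zero_iff_dvd _ 24).1 ?_
    rw [hee] at hj
    push_cast
    rw [ZMod.natCast_val, ZMod.cast_id]
    exact hj

section

variable {g : ℂ → ℂ}
  (hinv : ∀ a b c d : ℤ, a * d - b * (24 * c) = 1 → ∀ z : ℂ, 0 < z.im →
    g ((a * z + b) / (24 * c * z + d)) = g z)

include hinv

/-- reduction to the representatives of the cusps -/
theorem reduce24 {a b c d : ℤ} (h : a * d - b * c = 1) (j e : ℤ)
    (hN : (24 : ℤ) ∣ c - e * (d - j * c)) {z : ℂ} (hz : 0 < z.im) :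
    g ((a * z + b) / (c * z + d)) = g ((z + j) / (e * (z + j) + 1)) := by
  obtain ⟨c0, hc0⟩ := hN
  have hw : 0 < (z + j).im := by simpa using hz
  have hu := im_moebius (a := 1) (b := 0) (c := e) (d := 1) (by ring) hw
  have hu1 : 0 < ((z + j) / (e * (z + j) + 1)).im := by simpa using hu.1
  have hu2 : (e : ℂ) * (z + j) + 1 ≠ 0 := by simpa using hu.2
  have h2 := hinv (a - e * (b - j * a)) (b - j * a) c0 (d - j * c)
    (by rw [← hc0]; linear_combination h) _ hu1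
  rw [← h2]
  have hc0' : (24 : ℂ) * c0 = c - e * (d - j * c) := by exact_mod_cast hc0.symm
  congr 1
  rw [hc0']
  have e1 : ((a - e * (b - j * a) : ℤ) : ℂ) * ((z + j) / (e * (z + j) + 1)) +
      ((b - j * a : ℤ) : ℂ) = (a * z + b) / (e * (z + j) + 1) := by
    rw [eq_div_iff hu2, add_mul, mul_assoc, div_mul_cancel₀ _ hu2]
    push_cast
    ring
  have e2 : ((c : ℂ) - e * (d - j * c)) * ((z + j) / (e * (z + j) + 1)) +
      ((d - j * c : ℤ) : ℂ) = (c * z + d) / (e * (z + j) + 1) := by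
    rw [eq_div_iff hu2, add_mul, mul_assoc, div_mul_cancel₀ _ hu2]
    push_cast
    ring
  rw [e1, e2, div_div_div_cancel_right₀ hu2]

end

theorem m_cp : S_CP := by
  intro g hd hinv hb
  let F : ModularForm (Gamma0 24 : Subgroup (GL (Fin 2) ℝ)) 0 :=
    { toFun := fun z => g z
      slash_action_eq' := by
        rintro _ ⟨γ, hγ, rfl⟩
        change (fun z : ℍ => g z) ∣[(0 : ℤ)] γ = _
        obtain ⟨a, b, c, d, h, rfl⟩ := exists_mkSL γ
        have hγ' := (mkSL_mem a b c d h 24).1 hγ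
        clear hγ
        obtain ⟨c, rfl⟩ := hγ'
        funext z
        rw [ModularForm.SL_slash_apply, neg_zero, zpow_zero, mul_one, mkSL_smul]
        have h5 := hinv a b c d (by push_cast at h; exact h) z z.im_pos
        push_cast
        exact h5
      holo' := by
        rw [UpperHalfPlane.mdifferentiable_iff]
        refine hd.congr fun z hz => ?_
        rw [Function.comp_apply, ofComplex_apply_of_im_pos hz]
        rfl
      bdd_at_cusps' := by
        intro c hc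
        rw [Subgroup.IsArithmetic.isCusp_iff_isCusp_SL2Z] at hc
        rw [OnePoint.isBoundedAt_iff_forall_SL2Z hc]
        intro γ _
        obtain ⟨a, b, c, d, h, rfl⟩ := exists_mkSL γ
        obtain ⟨j, e, he, hN⟩ := cusp_reps a b c d h
        obtain ⟨B, T, hT, hB⟩ := hb e he
        rw [isBoundedAtImInfty_iff]
        refine ⟨B, T + 1, fun z hz => ?_⟩
        rw [ModularForm.SL_slash_apply, neg_zero, zpow_zero, mul_one, mkSL_smul,
          reduce24 hinv h j e hN z.im_pos]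
        refine hB _ ?_
        have h6 : ((z : ℂ) + j).im = z.im := by simp
        rw [h6]
        linarith }
  obtain ⟨c, hc⟩ := ModularForm.eq_const_of_weight_zero F
  exact ⟨c, fun z hz => congrFun hc ⟨z, hz⟩⟩

/-- Möbius transformations of positive determinant -/
theorem im_pos_of {A B C D : ℝ} (hdet : 0 < A * D - B * C) {z : ℂ} (hz : 0 < z.im) :
    0 < (((A : ℂ) * z + B) / (C * z + D)).im ∧ (C : ℂ) * z + D ≠ 0 := by
  have h0 : (C : ℂ) * z + D ≠ 0 := by
    intro h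
    have h1 := congrArg Complex.im h
    have h2 := congrArg Complex.re h
    simp at h1 h2
    rcases h1 with h1 | h1
    · rw [h1] at h2 hdet
      simp at h2
      rw [h2] at hdet
      simp at hdet
    · exact hz.ne' h1
  refine ⟨?_, h0⟩
  have hn : 0 < Complex.normSq ((C : ℂ) * z + D) := Complex.normSq_pos.2 h0
  rw [Complex.div_im, ← sub_div]
  refine div_pos ?_ hn
  have e : ((A : ℂ) * z + B).im * ((C : ℂ) * z + D).re - ((A : ℂ) * z + B).re * ((C : ℂ) * z + D).im =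
      (A * D - B * C) * z.im := by
    simp
    ring
  rw [e]
  positivity

theorem ez_ne (e : ℤ) {z : ℂ} (hz : 0 < z.im) : (e : ℂ) * z + 1 ≠ 0 := by
  have h := (im_pos_of (A := 1) (B := 0) (C := (e : ℝ)) (D := 1) (by norm_num) hz).2
  exact_mod_cast h

/-- transport of a bound -/
theorem bdd_of {g : ℂ → ℂ} (hinv : ∀ a b c d : ℤ, a * d - b * (24 * c) = 1 → ∀ z : ℂ, 0 < z.im →
      g ((a * z + b) / (24 * c * z + d)) = g z) (A B C D : ℝ) (hdet : 0 < A * D - B * C)
    (e : ℤ) (r s : ℝ) (hr : 0 < r)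
    (a b c d : ℤ) (h : a * d - b * (24 * c) = 1) (k : ℂ) (hk : k ≠ 0)
    (hm1 : ∀ z : ℂ, a * (A * (r * z + s) + B) + b * (C * (r * z + s) + D) = k * z)
    (hm2 : ∀ z : ℂ, 24 * c * (A * (r * z + s) + B) + d * (C * (r * z + s) + D) = k * (e * z + 1))
    (hb : ∃ B' T : ℝ, 0 ≤ T ∧ ∀ z : ℂ, T < z.im → ‖g ((A * z + B) / (C * z + D))‖ ≤ B') :
    ∃ B T : ℝ, 0 ≤ T ∧ ∀ z : ℂ, T < z.im → ‖g (z / (e * z + 1))‖ ≤ B := by
  obtain ⟨B', T, hT, hB⟩ := hb
  refine ⟨B', T / r, by positivity, fun z hz => ?_⟩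
  have hz0 : 0 < z.im := lt_of_le_of_lt (by positivity) hz
  have hi : ((r : ℂ) * z + s).im = r * z.im := by simp
  have h1 : 0 < ((r : ℂ) * z + s).im := by rw [hi]; positivity
  obtain ⟨h2, h3⟩ := im_pos_of hdet h1
  have e1 : z / (e * z + 1) =
      (a * ((A * (r * z + s) + B) / (C * (r * z + s) + D)) + b) /
        (24 * c * ((A * (r * z + s) + B) / (C * (r * z + s) + D)) + d) := by
    rw [mul_div_assoc', mul_div_assoc', div_add' _ _ _ h3, div_add' _ _ _ h3,
      div_div_div_cancel_right₀ h3, hm1, hm2, mul_div_mul_left _ _ hk]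
  rw [e1, hinv a b c d h _ h2]
  refine hB _ ?_
  rw [hi]
  rwa [div_lt_iff₀ hr, mul_comm] at hz

/-- rewriting a bound -/
theorem bdd_congr {g : ℂ → ℂ} {m m' : ℂ → ℂ} (hm : ∀ z : ℂ, m z = m' z)
    (hb : ∃ B T : ℝ, 0 ≤ T ∧ ∀ z : ℂ, T < z.im → ‖g (m z)‖ ≤ B) :
    ∃ B T : ℝ, 0 ≤ T ∧ ∀ z : ℂ, T < z.im → ‖g (m' z)‖ ≤ B := by
  obtain ⟨B, T, hT, hB⟩ := hb
  exact ⟨B, T, hT, fun z hz => by rw [← hm]; exact hB z hz⟩

theorem m_cp8 : S_CP8 := by
  intro g hd hinv h0 h1 h2 h3 h6 h8 h4 h12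
  refine m_cp g hd hinv ?_
  rintro e (rfl | rfl | rfl | rfl | rfl | rfl | rfl | rfl)
  · exact bdd_congr (fun z => by simp) h0
  · refine bdd_of hinv 0 (-1) 24 0 (by norm_num) 1 (1 / 24) (1 / 24) (by norm_num) 1 1 0 1
      (by norm_num) 1 one_ne_zero (fun z => ?_) (fun z => ?_) (bdd_congr (fun z => ?_) h1)
    all_goals push_cast
    all_goals ring
  · refine bdd_of hinv 12 (-1) 24 0 (by norm_num) 2 (1 / 6) (1 / 12) (by norm_num) 1 0 0 1
      (by norm_num) 2 two_ne_zero (fun z => ?_) (fun z => ?_) (bdd_congr (fun z => ?_) h2)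
    all_goals push_cast
    all_goals ring
  · refine bdd_of hinv 8 (-3) 24 (-8) (by norm_num) 3 (1 / 8) (3 / 8) (by norm_num) 1 0 0 1
      (by norm_num) 1 one_ne_zero (fun z => ?_) (fun z => ?_) (bdd_congr (fun z => ?_) h3)
    all_goals push_cast
    all_goals ring
  · refine bdd_of hinv (-3) 1 60 (-21) (by norm_num) 4 (1 / 3) (1 / 3) (by norm_num) 1 0 1 1
      (by norm_num) (-1) (by norm_num) (fun z => ?_) (fun z => ?_) (bdd_congr (fun z => ?_) h4)
    · push_cast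
      ring
    · push_cast
      ring
    · push_cast
      rw [← neg_div_neg_eq]
      ring
  · refine bdd_of hinv 20 (-7) 24 (-8) (by norm_num) 6 (1 / 2) (3 / 4) (by norm_num) 5 (-4) 1 (-19)
      (by norm_num) 2 two_ne_zero (fun z => ?_) (fun z => ?_) (bdd_congr (fun z => ?_) h6)
    all_goals push_cast
    all_goals ring
  · refine bdd_of hinv 3 1 24 9 (by norm_num) 8 (1 / 3) (-1 / 3) (by norm_num) 1 0 0 1
      (by norm_num) 1 one_ne_zero (fun z => ?_) (fun z => ?_) (bdd_congr (fun z => ?_) h8)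
    all_goals push_cast
    all_goals ring
  · refine bdd_of hinv 1 0 (-12) 1 (by norm_num) 12 1 0 (by norm_num) 1 0 1 1
      (by norm_num) 1 one_ne_zero (fun z => ?_) (fun z => ?_) (bdd_congr (fun z => ?_) h12)
    all_goals push_cast
    all_goals ring

end Run7.h209.P24
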