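import Pool.Agent.Run7.h555.G6.P4
import Pool.Agent.W646.MT.LAT

/-!
# Project P24, piece PER (M6): the real period of the twists of X_0(24) by `-n`

The lattice `i L` (`L` the rectangular period lattice of `E24`) has the real period `Ω⁻`; its real cubic is
`4 X³ - (52/3) X - 280/27`, that is `q1 v = 4 (v + 1)(v - 2)(v + 2)`, `X = v + 1/3`. Both components of
`{q1 > 0}` have the same integral.
-/

set_option autoImplicit false

open Filter MeasureTheory Set
open scoped Topology PeriodPair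

namespace Run7.h209.P24

open Pool.Agent.W646.MT (scale mem_scale scale_g2 scale_g3)
open Run7.h555.G6 Run7.h555.C12

/-- the cubic in the coordinate `℘` -/
noncomputable def qX (X : ℝ) : ℝ := 4 * X ^ 3 - 52 / 3 * X - 280 / 27

/-- the cubic in the coordinate of the curve -/
noncomputable def q1 (v : ℝ) : ℝ := (4 * (v + 1)) * (v + 2) * (v - 2)

theorem qX_eq (v : ℝ) : qX (v + 1 / 3) = q1 v := by
  unfold qX q1
  ring

/-- the data of the rotated lattice -/
theorem exists_RD {L : PeriodPair} {Op Om : ℝ} (h1 : 0 < Op) (h2 : 0 < Om)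
    (g2 : L.g₂ = 52 / 3) (g3 : L.g₃ = -280 / 27)
    (hL : ∀ w : ℂ, w ∈ L.lattice ↔ ∃ a b : ℤ, w = a * Op + b * Om * Complex.I) :
    ∃ L' : PeriodPair, RD L' Om qX (7 / 3) := by
  obtain ⟨L', hL'⟩ : ∃ L', L' = scale L Complex.I Complex.I_ne_zero := ⟨_, rfl⟩
  have hmem : ∀ w : ℂ, w ∈ L'.lattice ↔ ∃ a b : ℤ, w = a * Om + b * Op * Complex.I := by
    intro w
    have h3 := mem_scale L Complex.I Complex.I_ne_zero (-Complex.I * w)
    have e : Complex.I * (-Complex.I * w) = w := by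
      linear_combination (-w) * Complex.I_sq
    rw [e, ← hL'] at h3
    rw [← h3, hL]
    constructor
    · rintro ⟨a, b, hab⟩
      refine ⟨-b, a, ?_⟩
      push_cast
      linear_combination Complex.I * hab + (w + (b : ℂ) * Om) * Complex.I_sq
    · rintro ⟨a, b, rfl⟩
      refine ⟨b, -a, ?_⟩
      push_cast
      linear_combination (-(b : ℂ) * Op) * Complex.I_sq
  have hg2 : L'.g₂ = 52 / 3 := by
    rw [hL', scale_g2, g2, Complex.I_pow_four]
    norm_num
  have hg3 : L'.g₃ = 280 / 27 := by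
    have e : Complex.I ^ 6 = -1 := by
      calc Complex.I ^ 6 = (Complex.I ^ 2) ^ 3 := by ring
        _ = -1 := by rw [Complex.I_sq]; norm_num
    rw [hL', scale_g3, g3, e]
    norm_num
  have hcs : CS L' := by
    intro z hz
    obtain ⟨a, b, rfl⟩ := (hmem z).1 hz
    refine (hmem _).2 ⟨a, -b, ?_⟩
    simp only [map_add, map_mul, Complex.conj_ofReal, Complex.conj_I, map_intCast]
    push_cast
    ring
  refine ⟨L', hcs, ⟨h2, (hmem _).2 ⟨1, 0, by push_cast; ring⟩, ?_⟩, ?_, ?_, ?_⟩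
  · intro t ht0 ht1 hmt
    obtain ⟨a, b, hab⟩ := (hmem _).1 hmt
    have hre := congrArg Complex.re hab
    simp at hre
    have h5 : (0 : ℝ) < (a : ℝ) * Om := by rw [← hre]; exact ht0
    have h6 : (0 : ℝ) < (a : ℝ) := by
      by_contra hc
      push Not at hc
      have := mul_nonpos_of_nonpos_of_nonneg hc h2.le
      linarith
    have h7 : (1 : ℝ) ≤ a := by
      have : 0 < a := by exact_mod_cast h6
      have : 1 ≤ a := this
      exact_mod_cast this
    nlinarith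
  · intro t ht
    have h5 := L'.derivWeierstrassP_sq (t : ℂ) ht
    rw [hg2, hg3] at h5
    have h6 : (((℘'[L'] (t : ℂ)).re ^ 2 : ℝ) : ℂ) = ((qX (uR L' t) : ℝ) : ℂ) := by
      rw [Complex.ofReal_pow, hcs.d_real ht]
      unfold qX
      push_cast
      rw [hcs.u_real t]
      linear_combination h5
    exact_mod_cast h6
  · unfold qX; norm_num
  · intro x hx
    have e : qX x = q1 (x - 1 / 3) := by rw [← qX_eq]; congr 1; ring
    rw [e]
    unfold q1
    apply mul_pos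
    · apply mul_pos <;> linarith
    · linarith

/-- the unbounded component -/
theorem per_inf {L : PeriodPair} {Op Om : ℝ} (h1 : 0 < Op) (h2 : 0 < Om)
    (g2 : L.g₂ = 52 / 3) (g3 : L.g₃ = -280 / 27)
    (hL : ∀ w : ℂ, w ∈ L.lattice ↔ ∃ a b : ℤ, w = a * Op + b * Om * Complex.I) :
    IntegrableOn (fun x => 1 / √(q1 x)) (Ioi (2)) ∧
      ∫ x in Ioi (2), 1 / √(q1 x) = Om / 2 := by
  obtain ⟨L', D⟩ := exists_RD h1 h2 g2 g3 hL
  obtain ⟨p1, p2⟩ := D.period
  have himg : (fun v : ℝ => v - 1 / 3) '' Ioi (7 / 3) = Ioi (2) := by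
    ext x
    constructor
    · rintro ⟨v, hv, rfl⟩
      have hv' : (7 / 3 : ℝ) < v := hv
      show (2 : ℝ) < v - 1 / 3
      linarith
    · intro hx
      have hx' : (2 : ℝ) < x := hx
      exact ⟨x + 1 / 3, by show (7 / 3 : ℝ) < x + 1 / 3; linarith, by ring⟩
  have hd : ∀ v ∈ Ioi (7 / 3 : ℝ), HasDerivWithinAt (fun v : ℝ => v - 1 / 3) 1 (Ioi (7 / 3)) v :=
    fun v _ => ((hasDerivAt_id v).add_const _).hasDerivWithinAt
  have hinj : Set.InjOn (fun v : ℝ => v - 1 / 3) (Ioi (7 / 3)) := by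
    intro v _ w _ e
    have e' : v - 1 / 3 = w - 1 / 3 := e
    linarith
  have hf : ∀ v ∈ Ioi (7 / 3 : ℝ), |(1 : ℝ)| • (1 / √(q1 (v - 1 / 3))) = 1 / √(qX v) := by
    intro v _
    rw [← qX_eq, abs_one, one_smul]
    congr 3
    ring
  rw [← himg]
  constructor
  · rw [integrableOn_image_iff_integrableOn_abs_deriv_smul measurableSet_Ioi hd hinj]
    exact (integrableOn_congr_fun hf measurableSet_Ioi).2 p1
  · rw [integral_image_eq_integral_abs_deriv_smul measurableSet_Ioi hd hinj,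
      setIntegral_congr_fun measurableSet_Ioi hf, p2]

theorem q1_set : {x : ℝ | 0 < q1 x} = Ioo (-2) (-1) ∪ Ioi (2) := by
  ext x
  rw [Set.mem_ofPred_eq, mem_union, mem_Ioo, mem_Ioi]
  unfold q1
  constructor
  · intro h
    by_contra hc
    push Not at hc
    obtain ⟨h3, h4⟩ := hc
    rcases le_or_gt x (-2) with h5 | h5
    · have a1 : 0 ≤ (4 * (x + 1)) * (x + 2) := mul_nonneg_of_nonpos_of_nonpos (by linarith) (by linarith)
      have := mul_nonpos_of_nonneg_of_nonpos a1 (by linarith : x - 2 ≤ 0)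
      linarith
    · have h6 := h3 h5
      have a1 : 0 ≤ (4 * (x + 1)) * (x + 2) := mul_nonneg (by linarith) (by linarith)
      have := mul_nonpos_of_nonneg_of_nonpos a1 (by linarith : x - 2 ≤ 0)
      linarith
  · rintro (⟨h3, h4⟩ | h3)
    · apply mul_pos_of_neg_of_neg
      · exact mul_neg_of_neg_of_pos (by linarith) (by linarith)
      · linarith
    · apply mul_pos
      · exact mul_pos (by linarith) (by linarith)
      · linarith

theorem q1_inv {v : ℝ} (hv : v + 2 ≠ 0) :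
    q1 (-2 + 4 / (v + 2)) = (4 / (v + 2) ^ 2) ^ 2 * q1 v := by
  unfold q1
  field_simp
  ring

theorem img_eq : (fun v : ℝ => -2 + 4 / (v + 2)) '' Ioi (2) = Ioo (-2) (-1) := by
  ext x
  constructor
  · rintro ⟨v, hv, rfl⟩
    have hv' : (2 : ℝ) < v := hv
    have hv0 : 0 < v + 2 := by linarith
    have h1 : 0 < 4 / (v + 2) := by positivity
    have h2 : 4 / (v + 2) < 1 := by
      rw [div_lt_iff₀ hv0]
      linarith
    exact ⟨by show (-2 : ℝ) < -2 + 4 / (v + 2); linarith,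
      by show -2 + 4 / (v + 2) < (-1 : ℝ); linarith⟩
  · rintro ⟨h0, h1⟩
    have hx : 0 < x + 2 := by linarith
    refine ⟨-2 + 4 / (x + 2), ?_, ?_⟩
    · show (2 : ℝ) < -2 + 4 / (x + 2)
      have : 4 < 4 / (x + 2) := by
        rw [lt_div_iff₀ hx]
        linarith
      linarith
    · show -2 + 4 / (-2 + 4 / (x + 2) + 2) = x
      have e : -2 + 4 / (x + 2) + 2 = 4 / (x + 2) := by ring
      rw [e]
      field_simp
      ring

/-- the two components have the same integral -/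
theorem q1_comp (hI : IntegrableOn (fun x => 1 / √(q1 x)) (Ioi (2))) :
    IntegrableOn (fun x => 1 / √(q1 x)) (Ioo (-2) (-1)) ∧
    ∫ x in Ioo (-2) (-1), 1 / √(q1 x) = ∫ x in Ioi (2), 1 / √(q1 x) := by
  have hd : ∀ w ∈ Ioi (2 : ℝ), HasDerivWithinAt (fun w : ℝ => -2 + 4 / (w + 2))
      (-4 / (w + 2) ^ 2) (Ioi (2)) w := by
    intro w hw
    have hw' : (2 : ℝ) < w := hw
    have hw0 : w + 2 ≠ 0 := by linarith
    have h1 := ((hasDerivAt_const w (4 : ℝ)).div ((hasDerivAt_id w).add_const 2) hw0).const_add (-2)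
    refine (h1.congr_deriv ?_).hasDerivWithinAt
    simp
  have hinj : Set.InjOn (fun w : ℝ => -2 + 4 / (w + 2)) (Ioi (2)) := by
    intro w hw t ht e
    have hw' : (2 : ℝ) < w := hw
    have ht' : (2 : ℝ) < t := ht
    have hw0 : w + 2 ≠ 0 := by linarith
    have ht0 : t + 2 ≠ 0 := by linarith
    have e' : -2 + 4 / (w + 2) = -2 + 4 / (t + 2) := e
    have e2 : 4 / (w + 2) = 4 / (t + 2) := by linarith
    rw [div_eq_div_iff hw0 ht0] at e2
    linarith
  have hf : ∀ w ∈ Ioi (2 : ℝ),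
      |(-4 / (w + 2) ^ 2 : ℝ)| • (1 / √(q1 (-2 + 4 / (w + 2)))) = 1 / √(q1 w) := by
    intro w hw
    have hw' : (2 : ℝ) < w := hw
    have hw0 : 0 < w + 2 := by linarith
    have e1 : |(-4 / (w + 2) ^ 2 : ℝ)| = 4 / (w + 2) ^ 2 := by
      rw [neg_div, abs_neg, abs_of_pos (by positivity)]
    have h3 : 0 < q1 w := by
      have : w ∈ {x : ℝ | 0 < q1 x} := by rw [q1_set]; exact Or.inr hw
      exact this
    rw [e1, q1_inv hw0.ne', Real.sqrt_mul (by positivity), Real.sqrt_sq (by positivity), smul_eq_mul]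
    have := (Real.sqrt_pos.2 h3).ne'
    field_simp
  rw [← img_eq]
  constructor
  · rw [integrableOn_image_iff_integrableOn_abs_deriv_smul measurableSet_Ioi hd hinj]
    exact (integrableOn_congr_fun hf measurableSet_Ioi).2 hI
  · rw [integral_image_eq_integral_abs_deriv_smul measurableSet_Ioi hd hinj,
      setIntegral_congr_fun measurableSet_Ioi hf]

/-- **the integral over the real points** -/
theorem per_total {L : PeriodPair} {Op Om : ℝ} (h1 : 0 < Op) (h2 : 0 < Om)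
    (g2 : L.g₂ = 52 / 3) (g3 : L.g₃ = -280 / 27)
    (hL : ∀ w : ℂ, w ∈ L.lattice ↔ ∃ a b : ℤ, w = a * Op + b * Om * Complex.I) :
    ∫ x in {x : ℝ | 0 < q1 x}, 1 / √(q1 x) = Om := by
  obtain ⟨p1, p2⟩ := per_inf h1 h2 g2 g3 hL
  obtain ⟨p3, p4⟩ := q1_comp p1
  rw [q1_set, setIntegral_union ?_ measurableSet_Ioi p3 p1, p4, p2]
  · ring
  · rw [Set.disjoint_left]
    intro x hx hx'
    have a1 := hx.2
    have a2 : (2 : ℝ) < x := hx'
    linarith

/-- scaling: a cubic `Q` with `Q (n v) = n³ q1 v` -/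
theorem per_scale {Q : ℝ → ℝ} {n : ℕ} (hn : 0 < n) (hQ : ∀ v : ℝ, Q (n * v) = (n : ℝ) ^ 3 * q1 v)
    {L : PeriodPair} {Op Om : ℝ} (h1 : 0 < Op) (h2 : 0 < Om)
    (g2 : L.g₂ = 52 / 3) (g3 : L.g₃ = -280 / 27)
    (hL : ∀ w : ℂ, w ∈ L.lattice ↔ ∃ a b : ℤ, w = a * Op + b * Om * Complex.I) :
    (2 * ∫ x in {x : ℝ | 0 < Q x}, 1 / √(Q x)) * √n = 2 * Om := by
  have hmp : (0 : ℝ) < n := by exact_mod_cast hn
  have hsm : 0 < √(n : ℝ) := Real.sqrt_pos.2 hmp
  have hset : {x : ℝ | 0 < Q x} = (fun u : ℝ => (n : ℝ) * u) '' {x : ℝ | 0 < q1 x} := by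
    ext x
    constructor
    · intro hx
      have hx' : 0 < Q x := hx
      refine ⟨x / n, ?_, by field_simp⟩
      show 0 < q1 (x / n)
      have e : x = n * (x / n) := by field_simp
      rw [e, hQ] at hx'
      exact (mul_pos_iff_of_pos_left (by positivity)).1 hx'
    · rintro ⟨u, hu, rfl⟩
      have hu' : 0 < q1 u := hu
      show 0 < Q ((n : ℝ) * u)
      rw [hQ]
      positivity
  have hmeas : MeasurableSet {x : ℝ | 0 < q1 x} := by
    rw [q1_set]
    exact measurableSet_Ioo.union measurableSet_Ioi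
  have hm3 : √((n : ℝ) ^ 3) = n * √n := by
    have e : (n : ℝ) ^ 3 = n ^ 2 * n := by ring
    rw [e, Real.sqrt_mul (by positivity), Real.sqrt_sq hmp.le]
  have h3 : ∫ x in {x : ℝ | 0 < Q x}, 1 / √(Q x) = 1 / √n * Om := by
    rw [hset, integral_image_eq_integral_abs_deriv_smul (f' := fun _ : ℝ => (n : ℝ)) hmeas ?_ ?_]
    · rw [← per_total h1 h2 g2 g3 hL, ← integral_const_mul]
      refine setIntegral_congr_fun hmeas fun u hu => ?_
      have hu' : 0 < q1 u := hu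
      show |(n : ℝ)| • (1 / √(Q (n * u))) = 1 / √n * (1 / √(q1 u))
      rw [hQ, Real.sqrt_mul (by positivity), hm3, abs_of_pos hmp, smul_eq_mul]
      have := (Real.sqrt_pos.2 hu').ne'
      field_simp
    · intro u _
      have := (hasDerivAt_id u).const_mul (n : ℝ)
      rw [mul_one] at this
      exact this.hasDerivWithinAt
    · intro u _ w _ e
      exact mul_left_cancel₀ hmp.ne' e
  rw [h3]
  field_simp

/-- the twist by `D ≡ 1 mod 4` -/
def WT' (D : ℤ) : WeierstrassCurve ℤ := ⟨0, -D, 0, -(4 * D ^ 2), 4 * D ^ 3⟩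

theorem cubic_WT (n : ℕ) (x : ℝ) :
    4 * x ^ 3 + ((WT' (-(n : ℤ))).b₂ : ℝ) * x ^ 2 + 2 * ((WT' (-(n : ℤ))).b₄ : ℝ) * x +
      ((WT' (-(n : ℤ))).b₆ : ℝ) =
    4 * x ^ 3 + 4 * n * x ^ 2 - 16 * (n : ℝ) ^ 2 * x - 16 * (n : ℝ) ^ 3 := by
  have hb2 : ((WT' (-(n : ℤ))).b₂ : ℝ) = 4 * n := by
    have : (WT' (-(n : ℤ))).b₂ = 4 * (n : ℤ) := by
      unfold WT' WeierstrassCurve.b₂
      simp only
      ring
    rw [this]
    push_cast
    ring
  have hb4 : ((WT' (-(n : ℤ))).b₄ : ℝ) = -8 * (n : ℝ) ^ 2 := by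
    have : (WT' (-(n : ℤ))).b₄ = -8 * (n : ℤ) ^ 2 := by
      unfold WT' WeierstrassCurve.b₄
      simp only
      ring
    rw [this]
    push_cast
    ring
  have hb6 : ((WT' (-(n : ℤ))).b₆ : ℝ) = -16 * (n : ℝ) ^ 3 := by
    have : (WT' (-(n : ℤ))).b₆ = -16 * (n : ℤ) ^ 3 := by
      unfold WT' WeierstrassCurve.b₆
      simp only
      ring
    rw [this]
    push_cast
    ring
  rw [hb2, hb4, hb6]
  ring

/-- **PER** -/
theorem per (L : PeriodPair) (Op Om : ℝ) (h1 : 0 < Op) (h2 : 0 < Om)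
    (g2 : L.g₂ = 52 / 3) (g3 : L.g₃ = -280 / 27)
    (hL : ∀ w : ℂ, w ∈ L.lattice ↔ ∃ a b : ℤ, w = a * Op + b * Om * Complex.I)
    (n : ℕ) (hn : 0 < n) :
    (2 * ∫ x in {x : ℝ | 0 < 4 * x ^ 3 + ((WT' (-(n : ℤ))).b₂ : ℝ) * x ^ 2 +
        2 * ((WT' (-(n : ℤ))).b₄ : ℝ) * x + ((WT' (-(n : ℤ))).b₆ : ℝ)},
      1 / √(4 * x ^ 3 + ((WT' (-(n : ℤ))).b₂ : ℝ) * x ^ 2 + 2 * ((WT' (-(n : ℤ))).b₄ : ℝ) * x +
        ((WT' (-(n : ℤ))).b₆ : ℝ))) * √n = 2 * Om := by
  refine per_scale (Q := fun x => 4 * x ^ 3 + ((WT' (-(n : ℤ))).b₂ : ℝ) * x ^ 2 +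
    2 * ((WT' (-(n : ℤ))).b₄ : ℝ) * x + ((WT' (-(n : ℤ))).b₆ : ℝ)) hn ?_ h1 h2 g2 g3 hL
  intro v
  rw [cubic_WT n]
  unfold q1
  ring

end Run7.h209.P24
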