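import Pool.Agent.Run7.h741.MH.Stm
import Pool.Agent.Run7.h209.P24.M

/-!
# Project P24: the statements `S_TORS`, `S_LAT`, `S_CP`, `S_HASSE`, `S_FOUR`, `S_MIN` of `Run7/h741/MH/Stm.lean`
-/

set_option autoImplicit false

open Filter Topology

namespace Run7.h209.P24

open Pool.Agent.Run7.h741

theorem h_tors : MH.S_TORS := m_tors

theorem h_lat : MH.S_LAT := m_lat

theorem h_hasse : MH.S_HASSE := m_hasse

theorem h_eight (p : ℕ) (hp : p.Prime) (h2 : p ≠ 2) (h3 : p ≠ 3) :
    8 ∣ Pool.Agent.W97.MT.affCount MH.E24 p + 1 := m_eight p hp h2 h3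

theorem h_four : MH.S_FOUR := by
  intro p hp h2 h3
  exact Dvd.dvd.trans (by norm_num) (h_eight p hp h2 h3)

theorem h_min : MH.S_MIN := m_min

theorem h_minimal : Pool.Agent.W97.MT.IsGloballyMinimal MH.E24 := min24

theorem h_cp : MH.S_CP := by
  intro g hd hinv h0 h1 h2 h8 h12 h4 h3 h6
  refine m_cp g hd hinv ?_
  rintro e (rfl | rfl | rfl | rfl | rfl | rfl | rfl | rfl)
  · obtain ⟨B, T, hB⟩ := h0
    refine ⟨B, max T 0, le_max_right _ _, fun z hz => ?_⟩
    have e1 : z / (((0 : ℤ) : ℂ) * z + 1) = z := by simp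
    rw [e1]
    exact hB z (lt_of_le_of_lt (le_max_left _ _) hz)
  · refine bdd_of hinv 0 (-1) 24 0 (by norm_num) 1 (1 / 24) (1 / 24) (by norm_num) 1 1 0 1
      (by norm_num) 1 one_ne_zero (fun z => ?_) (fun z => ?_) (bdd_congr (fun z => ?_) h1)
    all_goals push_cast
    all_goals ring
  · obtain ⟨B, T, hT, hB⟩ := h2
    refine bdd_of hinv 12 (-1) 24 0 (by norm_num) 2 (1 / 6) (1 / 12) (by norm_num) 1 0 0 1
      (by norm_num) 2 two_ne_zero (fun z => ?_) (fun z => ?_) ⟨B, T, hT, fun z hz => ?_⟩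
    · push_cast
      ring
    · push_cast
      ring
    · have hz0 : z ≠ 0 := by
        rintro rfl
        simp at hz
        linarith
      have e1 : (((12 : ℝ) : ℂ) * z + ((-1 : ℝ) : ℂ)) / (((24 : ℝ) : ℂ) * z + ((0 : ℝ) : ℂ)) =
          -1 / (24 * z) + 1 / 2 := by
        push_cast
        field_simp
        ring
      rw [e1]
      exact hB z hz
  · refine bdd_of hinv 8 (-1) 72 (-8) (by norm_num) 3 (1 / 8) (3 / 8) (by norm_num) 19 (-2) 2 (-5)
      (by norm_num) 1 one_ne_zero (fun z => ?_) (fun z => ?_) (bdd_congr (fun z => ?_) h3)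
    all_goals push_cast
    all_goals ring
  · refine bdd_of hinv 3 1 60 21 (by norm_num) 4 (1 / 3) (-2 / 3) (by norm_num) (-19) 1 (-4) 5
      (by norm_num) 1 one_ne_zero (fun z => ?_) (fun z => ?_) (bdd_congr (fun z => ?_) h4)
    all_goals push_cast
    all_goals ring
  · obtain ⟨B, T, hT, hB⟩ := h6
    refine bdd_of hinv 44 (-5) 72 (-8) (by norm_num) 6 (1 / 2) (-1 / 4) (by norm_num)
      (-13) 8 (-4) 59 (by norm_num) 2 two_ne_zero (fun z => ?_) (fun z => ?_)
      ⟨B, T, hT, fun z hz => ?_⟩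
    · push_cast
      ring
    · push_cast
      ring
    · have hz0 : 0 < z.im := lt_of_le_of_lt hT hz
      have hn := (im_pos_of (A := 8) (B := -1) (C := 72) (D := -8) (by norm_num) hz0).2
      push_cast at hn
      have e1 : (((44 : ℝ) : ℂ) * z + ((-5 : ℝ) : ℂ)) / (((72 : ℝ) : ℂ) * z + ((-8 : ℝ) : ℂ)) =
          (8 * z - 1) / (72 * z - 8) + 1 / 2 := by
        push_cast
        rw [show (72 : ℂ) * z - 8 = 72 * z + -8 by ring, div_add' _ _ _ hn]
        congr 1
        ring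
      rw [e1]
      exact hB z hz
  · refine bdd_of hinv 3 1 24 9 (by norm_num) 8 (1 / 3) (-1 / 3) (by norm_num) 1 0 0 1
      (by norm_num) 1 one_ne_zero (fun z => ?_) (fun z => ?_) (bdd_congr (fun z => ?_) h8)
    all_goals push_cast
    all_goals ring
  · refine bdd_of hinv 1 0 12 1 (by norm_num) 12 1 0 (by norm_num) 1 0 0 1
      (by norm_num) 1 one_ne_zero (fun z => ?_) (fun z => ?_) (bdd_congr (fun z => ?_) h12)
    all_goals push_cast
    all_goals ring

end Run7.h209.P24
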