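import Pool.Agent.W97.MT.Stm

/-!
# The modular curve `X_0(24)`: statements of the independent parts

`V = η(8z)⁴ η(12z)² / (η(4z)² η(24z)⁴) = q⁻² + 2 q² + …`, `f = η(2z) η(4z) η(6z) η(12z)`. Eta quotients:

* `V + 3 = η(4z)⁷ η(6z) / (η(2z)³ η(8z)² η(12z) η(24z)²)` (double zero at `1/4`),
* `V     = η(8z)⁴ η(12z)² / (η(4z)² η(24z)⁴)` (double zero at `1/8`),
* `V - 1 = η(2z) η(8z)² η(12z)⁹ / (η(4z)³ η(6z)³ η(24z)⁶)` (double zero at `1/12`),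
* `V - 3 = η(2z)³ η(8z) η(12z)² / (η(4z)² η(6z) η(24z)³)` (simple zeros at `0` and `1/2`),
* `V + 1 = η(6z)³ η(8z) / (η(2z) η(24z)³)` (simple zeros at `1/3` and `1/6`),
* `Y = η(4z) η(8z)² η(12z)⁵ / (η(2z) η(6z) η(24z)⁶)`, `Y² = V (V + 3) (V - 1)`, and `R = -2 Y` satisfies
  `R² = 4 V³ + 8 V² - 12 V`, `dV = 2πi f R dz` (`q dV/dq = -2 f Y`).

`℘(F) = V + 2/3`, `g₂ = 52/3`, `g₃ = -280/27`.  The curve is `y² = (x - 1)(x - 2)(x + 2)`, `x = V + 1`.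
-/

set_option autoImplicit false

open UpperHalfPlane MatrixGroups CongruenceSubgroup Filter Topology

namespace Run7.h209.P24

open Pool.Agent.W97.MT (affCount ap)

/-- The curve `y² = x³ - x² - 4x + 4` (the modular curve `X_0(24)`). -/
def E24 : WeierstrassCurve ℤ := ⟨0, -1, 0, -4, 4⟩

/-- TORS: the values of `℘` at the points of order four -/
def S_TORS : Prop := ∀ L : PeriodPair, L.g₂ = 52 / 3 → L.g₃ = -280 / 27 →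
  ∀ u : ℂ, u ∉ L.lattice → (L.weierstrassP u = 11 / 3 ∨ L.weierstrassP u = -1 / 3) →
    2 * u ∉ L.lattice ∧ L.weierstrassP (2 * u) = 5 / 3 ∧ 4 * u ∈ L.lattice

/-- LAT: the lattice is rectangular -/
def S_LAT : Prop := ∃ (L : PeriodPair) (Op Om : ℝ), 0 < Op ∧ 0 < Om ∧
  L.g₂ = 52 / 3 ∧ L.g₃ = -280 / 27 ∧
  ∀ w : ℂ, w ∈ L.lattice ↔ ∃ a b : ℤ, w = a * Op + b * Om * Complex.I

/-- CP: the constant principle on `X_0(24)`; the cusps are `1/e` -/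
def S_CP : Prop := ∀ g : ℂ → ℂ, DifferentiableOn ℂ g {z : ℂ | 0 < z.im} →
  (∀ a b c d : ℤ, a * d - b * (24 * c) = 1 → ∀ z : ℂ, 0 < z.im →
    g ((a * z + b) / (24 * c * z + d)) = g z) →
  (∀ e : ℤ, (e = 0 ∨ e = 1 ∨ e = 2 ∨ e = 3 ∨ e = 4 ∨ e = 6 ∨ e = 8 ∨ e = 12) →
    ∃ B T : ℝ, 0 ≤ T ∧ ∀ z : ℂ, T < z.im → ‖g (z / (e * z + 1))‖ ≤ B) →
  ∃ c : ℂ, ∀ z : ℂ, 0 < z.im → g z = c

/-- CP8: the constant principle on `X_0(24)` for the normalised cusps -/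
def S_CP8 : Prop := ∀ g : ℂ → ℂ, DifferentiableOn ℂ g {z : ℂ | 0 < z.im} →
  (∀ a b c d : ℤ, a * d - b * (24 * c) = 1 → ∀ z : ℂ, 0 < z.im →
    g ((a * z + b) / (24 * c * z + d)) = g z) →
  (∃ B T : ℝ, 0 ≤ T ∧ ∀ z : ℂ, T < z.im → ‖g z‖ ≤ B) →
  (∃ B T : ℝ, 0 ≤ T ∧ ∀ z : ℂ, T < z.im → ‖g (-1 / (24 * z))‖ ≤ B) →
  (∃ B T : ℝ, 0 ≤ T ∧ ∀ z : ℂ, T < z.im → ‖g ((12 * z - 1) / (24 * z))‖ ≤ B) →
  (∃ B T : ℝ, 0 ≤ T ∧ ∀ z : ℂ, T < z.im → ‖g ((8 * z - 3) / (24 * z - 8))‖ ≤ B) →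
  (∃ B T : ℝ, 0 ≤ T ∧ ∀ z : ℂ, T < z.im → ‖g ((20 * z - 7) / (24 * z - 8))‖ ≤ B) →
  (∃ B T : ℝ, 0 ≤ T ∧ ∀ z : ℂ, T < z.im → ‖g ((3 * z + 1) / (24 * z + 9))‖ ≤ B) →
  (∃ B T : ℝ, 0 ≤ T ∧ ∀ z : ℂ, T < z.im → ‖g ((3 * z - 1) / (21 - 60 * z))‖ ≤ B) →
  (∃ B T : ℝ, 0 ≤ T ∧ ∀ z : ℂ, T < z.im → ‖g (z / (1 - 12 * z))‖ ≤ B) →
  ∃ c : ℂ, ∀ z : ℂ, 0 < z.im → g z = c

/-- HASSE: the coefficient of `q^p` modulo `p` -/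
def S_HASSE : Prop := ∀ (p : ℕ) [Fact p.Prime], p ≠ 2 → ∀ φ ξ σ : PowerSeries (ZMod p),
  PowerSeries.constantCoeff ξ = 1 → PowerSeries.constantCoeff σ = -2 →
  PowerSeries.X * PowerSeries.derivative (ZMod p) ξ - 2 * ξ = φ * σ →
  σ ^ 2 = 4 * ξ ^ 3 + 8 * PowerSeries.X ^ 2 * ξ ^ 2 - 12 * PowerSeries.X ^ 4 * ξ →
  PowerSeries.coeff (p - 1) φ = (ap E24 p : ZMod p)

/-- EIGHT: eight divides the number of points -/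
def S_EIGHT : Prop := ∀ (p : ℕ), p.Prime → p ≠ 2 → p ≠ 3 → 8 ∣ affCount E24 p + 1

/-- MIN: the point counts at the small primes -/
def S_MIN : Prop := affCount E24 2 = 2 ∧ affCount E24 3 = 4 ∧
  ∀ p : ℕ, p.Prime → affCount E24 p ≤ 2 * p

end Run7.h209.P24
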